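import Pool.Agent.helper78.HFN.Spec

set_option autoImplicit false

open Polynomial Module

namespace Pool.Agent.HFN

noncomputable section

theorem MDR_ex (n n' d : ℕ) (h : n' ≤ n) : ex n' d ≤ ex n d ∧ ex n d ≤ ex n' d + 3 * (n - n') := by
  unfold ex
  omega

theorem MDR (hDIR : DIR_stmt) (hASG : ASG_stmt) (hTYP : TYP_stmt) : MDR_stmt := by
  intro Z S T hS hT hS2 hT2 h100
  obtain ⟨L, hL, hsum, _, hb⟩ := hDIR Z S T hS hT hS2 hT2 h100
  obtain ⟨n, hn, hnr, hnn⟩ := hASG L hL Z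
  refine ⟨L.length, fun t => dX (L.get t), fun t => dY (L.get t), n, ⟨fun t => ?_, hnr⟩, ?_⟩
  · exact hTYP _ (hL.1 _ (List.get_mem L t))
  intro i j hi hj
  have h1 := hb i j hi hj
  have h2 : (L.map fun C => ex (nn Z C) (ip i j C)).sum =
      ∑ t : Fin L.length, ex (nn Z (L.get t)) (ip i j (L.get t)) :=
    (Fin.sum_univ_fun_getElem L fun C => ex (nn Z C) (ip i j C)).symm
  have h3 : ∑ t : Fin L.length, ex (n t) (i * dY (L.get t) + j * dX (L.get t)) ≤
      ∑ t : Fin L.length, ex (nn Z (L.get t)) (ip i j (L.get t)) :=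
    Finset.sum_le_sum fun t _ => (MDR_ex _ _ _ (hn t)).1
  have h4 : ∑ t : Fin L.length, ex (nn Z (L.get t)) (ip i j (L.get t)) ≤
      ∑ t : Fin L.length, ex (n t) (i * dY (L.get t) + j * dX (L.get t)) +
        3 * ∑ t : Fin L.length, (nn Z (L.get t) - n t) := by
    rw [Finset.mul_sum, ← Finset.sum_add_distrib]
    exact Finset.sum_le_sum fun t _ => (MDR_ex _ _ _ (hn t)).2
  have h5 : ∑ t : Fin L.length, (nn Z (L.get t) - n t) ≤ (L.map dX).sum * (L.map dY).sum := by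
    have h6 : ∑ t : Fin L.length, (nn Z (L.get t) - n t) + ∑ t, n t = ∑ t, nn Z (L.get t) := by
      rw [← Finset.sum_add_distrib]
      exact Finset.sum_congr rfl fun t _ => Nat.sub_add_cancel (hn t)
    omega
  unfold FL at h1
  unfold Fn
  rw [h2] at h1
  generalize (L.map dX).sum = β at hsum h5
  generalize (L.map dY).sum = β' at hsum h5
  generalize ∑ t : Fin L.length, ex (n t) (i * dY (L.get t) + j * dX (L.get t)) = A at h3 h4 ⊢
  generalize ∑ t : Fin L.length, ex (nn Z (L.get t)) (ip i j (L.get t)) = B at h1 h3 h4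
  generalize ∑ t : Fin L.length, (nn Z (L.get t) - n t) = D at h4 h5
  generalize HH Z i j = H at h1 ⊢
  generalize Z.card = r at h1 hsum ⊢
  have h7 : (B : ℤ) ≤ A + 3 * (β * β') := by
    have : B ≤ A + 3 * (β * β') := by omega
    exact_mod_cast this
  have h8 : (A : ℤ) ≤ B := by exact_mod_cast h3
  have h9 : |H - (3 * (r : ℤ) - (A : ℕ))| ≤ |H - (3 * (r : ℤ) - (B : ℕ))| + 3 * ((β : ℤ) * β') := by
    have h10 : H - (3 * (r : ℤ) - (A : ℕ)) = (H - (3 * (r : ℤ) - (B : ℕ))) + ((A : ℤ) - B) := by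
      push_cast
      ring
    rw [h10]
    refine (abs_add_le _ _).trans (add_le_add le_rfl ?_)
    rw [abs_le]
    constructor <;> nlinarith
  have hsum' : (T : ℤ) * β + S * β' ≤ 12 * r := by exact_mod_cast hsum
  have h11 : 4 * ((S : ℤ) * T * (β * β')) ≤ 144 * (r : ℤ) ^ 2 := by
    have h12 : (0 : ℤ) ≤ (T : ℤ) * β + S * β' := by positivity
    have h13 : ((T : ℤ) * β + S * β') ^ 2 ≤ (12 * (r : ℤ)) ^ 2 := pow_le_pow_left₀ h12 hsum' 2
    nlinarith [sq_nonneg ((T : ℤ) * β - S * β')]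
  have h14 : (0 : ℤ) ≤ (S : ℤ) * T := by positivity
  have h15 := mul_le_mul_of_nonneg_right h9 h14
  push_cast at h1 h15 ⊢
  nlinarith

end

end Pool.Agent.HFN
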